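import Mathlib

/-!
Weighted additive energy in an abelian group (adapted from helper633's file on integers).
-/

set_option autoImplicit false
set_option linter.unusedSectionVars false

namespace Pool.Agent.H452R3.SPR

open Finset

variable {V : Type*} [AddCommGroup V] [DecidableEq V]

/-- weighted additive energy form -/
noncomputable def E (T : Finset V) (a b c d : V → ℝ) : ℝ :=
  ∑ w ∈ T, ∑ x ∈ T, ∑ y ∈ T, ∑ z ∈ T,
    if w + x = y + z then a w * b x * (c y * d z) else 0

/-- the square of the `L⁴` norm -/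
noncomputable def N (T : Finset V) (f : V → ℝ) : ℝ := Real.sqrt (E T f f f f)

/-- grouping by labels -/
theorem lab {P Q : Type*} (S : Finset P) (S' : Finset Q) (l : P → V) (l' : Q → V)
    (u : P → ℝ) (v : Q → ℝ) (L : Finset V) (hL : ∀ p ∈ S, l p ∈ L) :
    (∑ p ∈ S, ∑ q ∈ S', if l p = l' q then u p * v q else 0) =
      ∑ s ∈ L, (∑ p ∈ S, if l p = s then u p else 0) *
        (∑ q ∈ S', if l' q = s then v q else 0) := by
  have h1 : ∀ s ∈ L, (∑ p ∈ S, if l p = s then u p else 0) *
        (∑ q ∈ S', if l' q = s then v q else 0) =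
      ∑ p ∈ S, ∑ q ∈ S', if l p = s then (if l' q = s then u p * v q else 0) else 0 := by
    intro s _
    rw [Finset.sum_mul_sum]
    refine Finset.sum_congr rfl fun p _ => Finset.sum_congr rfl fun q _ => ?_
    split_ifs <;> simp
  rw [Finset.sum_congr rfl h1]
  have h2 : (∑ s ∈ L, ∑ p ∈ S, ∑ q ∈ S', if l p = s then (if l' q = s then u p * v q else 0)
      else 0) = ∑ p ∈ S, ∑ q ∈ S', ∑ s ∈ L,
        if l p = s then (if l' q = s then u p * v q else 0) else 0 := by
    rw [Finset.sum_comm]
    refine Finset.sum_congr rfl fun p _ => ?_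
    rw [Finset.sum_comm]
  rw [h2]
  refine Finset.sum_congr rfl fun p hp => Finset.sum_congr rfl fun q _ => ?_
  rw [Finset.sum_ite_eq]
  rw [if_pos (hL p hp)]
  by_cases h : l p = l' q
  · rw [if_pos h, if_pos h.symm]
  · rw [if_neg h, if_neg (fun h' => h h'.symm)]

/-- Cauchy-Schwarz after grouping by labels -/
theorem csl {P Q : Type*} (S : Finset P) (S' : Finset Q) (l : P → V) (l' : Q → V)
    (u : P → ℝ) (v : Q → ℝ) :
    (∑ p ∈ S, ∑ q ∈ S', if l p = l' q then u p * v q else 0) ^ 2 ≤
      (∑ p ∈ S, ∑ p' ∈ S, if l p = l p' then u p * u p' else 0) *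
        (∑ q ∈ S', ∑ q' ∈ S', if l' q = l' q' then v q * v q' else 0) := by
  classical
  set L : Finset V := S.image l ∪ S'.image l' with hL
  have h1 : ∀ p ∈ S, l p ∈ L := fun p hp => by
    rw [hL]; exact Finset.mem_union_left _ (Finset.mem_image_of_mem _ hp)
  have h2 : ∀ q ∈ S', l' q ∈ L := fun q hq => by
    rw [hL]; exact Finset.mem_union_right _ (Finset.mem_image_of_mem _ hq)
  rw [lab S S' l l' u v L h1, lab S S l l u u L h1, lab S' S' l' l' v v L h2]
  have := Finset.sum_mul_sq_le_sq_mul_sq L (fun s => ∑ p ∈ S, if l p = s then u p else 0)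
    (fun s => ∑ q ∈ S', if l' q = s then v q else 0)
  simpa only [sq] using this

/-- a diagonal form is nonnegative -/
theorem diag_nonneg {P : Type*} (S : Finset P) (l : P → V) (u : P → ℝ) :
    0 ≤ ∑ p ∈ S, ∑ p' ∈ S, if l p = l p' then u p * u p' else 0 := by
  classical
  rw [lab S S l l u u (S.image l) (fun p hp => Finset.mem_image_of_mem _ hp)]
  exact Finset.sum_nonneg fun s _ => mul_self_nonneg _

theorem E_pairs (T : Finset V) (a b c d : V → ℝ) :
    E T a b c d = ∑ p ∈ T ×ˢ T, ∑ q ∈ T ×ˢ T, if p.1 + p.2 = q.1 + q.2 then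
      (a p.1 * b p.2) * (c q.1 * d q.2) else 0 := by
  rw [Finset.sum_product]
  refine Finset.sum_congr rfl fun w _ => Finset.sum_congr rfl fun x _ => ?_
  rw [Finset.sum_product]

theorem E_hold1 (T : Finset V) (a b c d : V → ℝ) :
    E T a b c d ^ 2 ≤ E T a b a b * E T c d c d := by
  rw [E_pairs, E_pairs, E_pairs]
  exact csl (T ×ˢ T) (T ×ˢ T) (fun p => p.1 + p.2) (fun p => p.1 + p.2)
    (fun p => a p.1 * b p.2) (fun q => c q.1 * d q.2)

theorem E_nonneg' (T : Finset V) (a b : V → ℝ) : 0 ≤ E T a b a b := by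
  rw [E_pairs]
  exact diag_nonneg (T ×ˢ T) (fun p => p.1 + p.2) (fun p => a p.1 * b p.2)

/-- the difference form of `E a b a b` -/
theorem E_diff (T : Finset V) (a b : V → ℝ) :
    E T a b a b = ∑ p ∈ T ×ˢ T, ∑ q ∈ T ×ˢ T, if p.1 - p.2 = q.1 - q.2 then
      (a p.1 * a p.2) * (b q.1 * b q.2) else 0 := by
  rw [Finset.sum_product]
  unfold E
  refine Finset.sum_congr rfl fun w _ => ?_
  -- sum over x, y, z  versus  sum over y, z, x
  have h1 : (∑ x ∈ T, ∑ y ∈ T, ∑ z ∈ T, if w + x = y + z then a w * b x * (a y * b z) else 0) =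
      ∑ y ∈ T, ∑ z ∈ T, ∑ x ∈ T, if w + x = y + z then a w * b x * (a y * b z) else 0 := by
    rw [Finset.sum_comm]
    refine Finset.sum_congr rfl fun y _ => ?_
    rw [Finset.sum_comm]
  rw [h1]
  refine Finset.sum_congr rfl fun y _ => ?_
  rw [Finset.sum_product]
  refine Finset.sum_congr rfl fun z _ => Finset.sum_congr rfl fun x _ => ?_
  by_cases h : w + x = y + z
  · rw [if_pos h, if_pos (show w - y = z - x by rw [sub_eq_sub_iff_add_eq_add, h, add_comm])]; ring
  · rw [if_neg h, if_neg (fun h' => h (by rw [sub_eq_sub_iff_add_eq_add] at h'; rw [h', add_comm]))]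

theorem E_hold2 (T : Finset V) (a b : V → ℝ) :
    E T a b a b ^ 2 ≤ E T a a a a * E T b b b b := by
  rw [E_diff T a b, E_diff T a a, E_diff T b b]
  exact csl (T ×ˢ T) (T ×ˢ T) (fun p => p.1 - p.2) (fun p => p.1 - p.2)
    (fun p => a p.1 * a p.2) (fun q => b q.1 * b q.2)

theorem N_nonneg (T : Finset V) (f : V → ℝ) : 0 ≤ N T f := Real.sqrt_nonneg _

theorem N_sq (T : Finset V) (f : V → ℝ) : N T f ^ 2 = E T f f f f :=
  Real.sq_sqrt (E_nonneg' T f f)

theorem E_ab (T : Finset V) (a b : V → ℝ) : E T a b a b ≤ N T a * N T b := by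
  apply le_of_sq_le_sq _ (mul_nonneg (N_nonneg T a) (N_nonneg T b))
  rw [mul_pow, N_sq, N_sq]
  exact E_hold2 T a b

/-- Hölder's inequality -/
theorem hold (T : Finset V) (a b c d : V → ℝ) :
    E T a b c d ≤ Real.sqrt (N T a * N T b) * Real.sqrt (N T c * N T d) := by
  have h0 := N_nonneg T
  rw [← Real.sqrt_mul (mul_nonneg (h0 a) (h0 b))]
  apply Real.le_sqrt_of_sq_le
  refine (E_hold1 T a b c d).trans ?_
  exact mul_le_mul (E_ab T a b) (E_ab T c d) (E_nonneg' T c d) (mul_nonneg (h0 a) (h0 b))

theorem E_add_sub (T : Finset V) (a b : V → ℝ) :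
    E T (fun n => a n + b n) (fun n => a n + b n) (fun n => a n + b n) (fun n => a n + b n) +
      E T (fun n => a n - b n) (fun n => a n - b n) (fun n => a n - b n) (fun n => a n - b n) =
    2 * (E T a a a a + E T b b a a + E T a a b b + E T b a b a + E T b a a b + E T a b b a +
      E T a b a b + E T b b b b) := by
  unfold E
  simp only [← Finset.sum_add_distrib, Finset.mul_sum]
  refine Finset.sum_congr rfl fun w _ => Finset.sum_congr rfl fun x _ =>
    Finset.sum_congr rfl fun y _ => Finset.sum_congr rfl fun z _ => ?_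
  split_ifs <;> ring

theorem two_a_two_b (T : Finset V) (a b : V → ℝ) :
    E T b b a a + E T a a b b + E T b a b a + E T b a a b + E T a b b a + E T a b a b ≤
      6 * (N T a * N T b) := by
  have ha := N_nonneg T a
  have hb := N_nonneg T b
  have h1 := hold T b b a a
  have h2 := hold T a a b b
  have h3 := hold T b a b a
  have h4 := hold T b a a b
  have h5 := hold T a b b a
  have h6 := hold T a b a b
  rw [mul_comm (N T b) (N T a)] at h3 h4 h5
  rw [Real.sqrt_mul_self hb, Real.sqrt_mul_self ha] at h1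
  rw [Real.sqrt_mul_self hb, Real.sqrt_mul_self ha] at h2
  rw [Real.mul_self_sqrt (mul_nonneg ha hb)] at h3 h4 h5 h6
  linarith

/-- two point inequality -/
theorem bcl (T : Finset V) (a b : V → ℝ) :
    N T (fun n => a n + b n) + N T (fun n => a n - b n) ≤ 2 * N T a + 6 * N T b := by
  have ha := N_nonneg T a
  have hb := N_nonneg T b
  have h1 := N_nonneg T (fun n => a n + b n)
  have h2 := N_nonneg T (fun n => a n - b n)
  have h3 := E_add_sub T a b
  have h4 := two_a_two_b T a b
  rw [← N_sq, ← N_sq, ← N_sq, ← N_sq] at h3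
  apply le_of_sq_le_sq _ (by positivity)
  nlinarith [sq_nonneg (N T (fun n => a n + b n) - N T (fun n => a n - b n)), sq_nonneg (N T b),
    mul_nonneg ha hb]

theorem N_smul (T : Finset V) (f : V → ℝ) (c : ℝ) : N T (fun n => c * f n) = c ^ 2 * N T f := by
  have h : E T (fun n => c * f n) (fun n => c * f n) (fun n => c * f n) (fun n => c * f n) =
      (c ^ 2) ^ 2 * E T f f f f := by
    unfold E
    simp only [Finset.mul_sum]
    refine Finset.sum_congr rfl fun w _ => Finset.sum_congr rfl fun x _ =>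
      Finset.sum_congr rfl fun y _ => Finset.sum_congr rfl fun z _ => ?_
    split_ifs <;> ring
  unfold N
  rw [h, Real.sqrt_mul (by positivity), Real.sqrt_sq (by positivity)]

theorem E_zero (T : Finset V) (a b c d : V → ℝ)
    (h : ∀ w x y z : V, w + x = y + z → a w * b x * (c y * d z) = 0) : E T a b c d = 0 := by
  unfold E
  refine Finset.sum_eq_zero fun w _ => Finset.sum_eq_zero fun x _ =>
    Finset.sum_eq_zero fun y _ => Finset.sum_eq_zero fun z _ => ?_
  split_ifs with h1
  · exact h w x y z h1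
  · rfl

/-- the expansion of the energy of a sum -/
theorem E_add (T : Finset V) (g f : V → ℝ) :
    E T (fun n => g n + f n) (fun n => g n + f n) (fun n => g n + f n) (fun n => g n + f n) =
    E T g g g g + (E T f g g g + E T g f g g + E T g g f g + E T g g g f) +
      (E T f f g g + E T g g f f + E T f g f g + E T f g g f + E T g f f g + E T g f g f) +
      (E T f f f g + E T f f g f + E T f g f f + E T g f f f) + E T f f f f := by
  unfold E
  simp only [← Finset.sum_add_distrib]
  refine Finset.sum_congr rfl fun w _ => Finset.sum_congr rfl fun x _ =>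
    Finset.sum_congr rfl fun y _ => Finset.sum_congr rfl fun z _ => ?_
  split_ifs <;> ring

/-- no relation between one element of the support of `f` and three elements of the support of `g` -/
def Sep (g f : V → ℝ) : Prop :=
  ∀ a b c d, f a ≠ 0 → g b ≠ 0 → g c ≠ 0 → g d ≠ 0 → a + b ≠ c + d

theorem Sep.smul {g f : V → ℝ} (h : Sep g f) (c : ℝ) : Sep g (fun n => c * f n) :=
  fun a b c' d ha hb hc hd => h a b c' d (fun h0 => ha (by show c * f a = 0; rw [h0, mul_zero])) hb hc hd

theorem al4 (T : Finset V) {g f : V → ℝ} (h : Sep g f) :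
    N T (fun n => g n + f n) ≤ N T g + 4 * N T f := by
  have hg := N_nonneg T g
  have hf := N_nonneg T f
  have z1 : E T f g g g = 0 := by
    apply E_zero
    intro w x y z he
    by_contra hne
    have h1 : f w ≠ 0 := fun h0 => hne (by rw [h0]; ring)
    have h2 : g x ≠ 0 := fun h0 => hne (by rw [h0]; ring)
    have h3 : g y ≠ 0 := fun h0 => hne (by rw [h0]; ring)
    have h4 : g z ≠ 0 := fun h0 => hne (by rw [h0]; ring)
    exact h w x y z h1 h2 h3 h4 he
  have z2 : E T g f g g = 0 := by
    apply E_zero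
    intro w x y z he
    by_contra hne
    have h1 : g w ≠ 0 := fun h0 => hne (by rw [h0]; ring)
    have h2 : f x ≠ 0 := fun h0 => hne (by rw [h0]; ring)
    have h3 : g y ≠ 0 := fun h0 => hne (by rw [h0]; ring)
    have h4 : g z ≠ 0 := fun h0 => hne (by rw [h0]; ring)
    exact h x w y z h2 h1 h3 h4 (by rw [add_comm]; exact he)
  have z3 : E T g g f g = 0 := by
    apply E_zero
    intro w x y z he
    by_contra hne
    have h1 : g w ≠ 0 := fun h0 => hne (by rw [h0]; ring)
    have h2 : g x ≠ 0 := fun h0 => hne (by rw [h0]; ring)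
    have h3 : f y ≠ 0 := fun h0 => hne (by rw [h0]; ring)
    have h4 : g z ≠ 0 := fun h0 => hne (by rw [h0]; ring)
    exact h y z w x h3 h4 h1 h2 he.symm
  have z4 : E T g g g f = 0 := by
    apply E_zero
    intro w x y z he
    by_contra hne
    have h1 : g w ≠ 0 := fun h0 => hne (by rw [h0]; ring)
    have h2 : g x ≠ 0 := fun h0 => hne (by rw [h0]; ring)
    have h3 : g y ≠ 0 := fun h0 => hne (by rw [h0]; ring)
    have h4 : f z ≠ 0 := fun h0 => hne (by rw [h0]; ring)
    exact h z y w x h4 h3 h1 h2 (by rw [add_comm z y]; exact he.symm)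
  have hs : Real.sqrt (N T f * N T g) ≤ (N T f + N T g) / 2 := by
    rw [show (N T f + N T g) / 2 = Real.sqrt (((N T f + N T g) / 2) ^ 2) by
      rw [Real.sqrt_sq (by positivity)]]
    apply Real.sqrt_le_sqrt
    nlinarith [sq_nonneg (N T f - N T g)]
  have t1 := hold T f f f g
  have t2 := hold T f f g f
  have t3 := hold T f g f f
  have t4 := hold T g f f f
  rw [mul_comm (N T g) (N T f)] at t2 t4
  rw [Real.sqrt_mul_self hf] at t1 t2 t3 t4
  have six := two_a_two_b T g f
  have hE := E_add T g f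
  rw [z1, z2, z3, z4] at hE
  have hs2 := mul_le_mul_of_nonneg_left hs hf
  have hN : N T (fun n => g n + f n) ^ 2 ≤ (N T g + 4 * N T f) ^ 2 := by
    rw [N_sq, hE, ← N_sq T g, ← N_sq T f]
    nlinarith
  exact le_of_sq_le_sq hN (by positivity)

theorem al_step (T : Finset V) {C : ℝ}
    (hC : ∀ g f : V → ℝ, Sep g f → N T (fun n => g n + f n) ≤ N T g + C * N T f)
    {g f : V → ℝ} (h : Sep g f) :
    N T (fun n => g n + f n) ≤ N T g + ((C + 3) / 2) * N T f := by
  have h1 := bcl T (fun n => g n + 1 / 2 * f n) (fun n => 1 / 2 * f n)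
  have e1 : (fun n => g n + 1 / 2 * f n + 1 / 2 * f n) = fun n => g n + f n := by
    funext n; ring
  have e2 : (fun n => g n + 1 / 2 * f n - 1 / 2 * f n) = g := by
    funext n; ring
  simp only [e1, e2] at h1
  have h2 := hC g (fun n => 1 / 2 * f n) (h.smul _)
  rw [N_smul T f (1 / 2)] at h1 h2
  nlinarith [N_nonneg T f]

theorem al_iter (T : Finset V) (k : ℕ) : ∀ g f : V → ℝ, Sep g f →
    N T (fun n => g n + f n) ≤ N T g + (3 + 1 / 2 ^ k) * N T f := by
  induction k with
  | zero =>
    intro g f h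
    have := al4 T h
    norm_num
    linarith
  | succ k ih =>
    intro g f h
    have := al_step T ih h
    have e : (3 + 1 / 2 ^ k + 3) / 2 = (3 : ℝ) + 1 / 2 ^ (k + 1) := by
      rw [pow_succ]; field_simp; ring
    rw [e] at this
    exact this

/-- **The martingale inequality in `L⁴`.** -/
theorem al3 (T : Finset V) {g f : V → ℝ} (h : Sep g f) :
    N T (fun n => g n + f n) ≤ N T g + 3 * N T f := by
  have hlim : Filter.Tendsto (fun k : ℕ => N T g + (3 + 1 / 2 ^ k) * N T f) Filter.atTop
      (nhds (N T g + (3 + 0) * N T f)) := by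
    apply Filter.Tendsto.const_add
    apply Filter.Tendsto.mul_const
    apply Filter.Tendsto.const_add
    have := tendsto_pow_atTop_nhds_zero_of_lt_one (r := (1 / 2 : ℝ)) (by norm_num) (by norm_num)
    simpa [one_div, inv_pow] using this
  rw [add_zero] at hlim
  exact ge_of_tendsto' hlim (fun k => al_iter T k g f h)

end Pool.Agent.H452R3.SPR
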