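import Mathlib
import Pool.Agent.H452R3.SPR.En

/-!
The functional `R A = sup (∑ f)² / ‖f‖₄²` over nonnegative weights `f` on `A`.
-/

set_option autoImplicit false
set_option linter.unusedSectionVars false

namespace Pool.Agent.H452R3.SPR

open Finset

variable {V : Type*} [AddCommGroup V] [DecidableEq V]
open scoped Pointwise

/-- `f` is a nonnegative weight on `A` of total mass `ρ` with `‖f‖₄² ≤ ρ`. -/
def G (A : Finset V) (ρ : ℝ) : Prop :=
  ∃ f : V → ℝ, (∀ n, 0 ≤ f n) ∧ (∀ n, n ∉ A → f n = 0) ∧ ∑ n ∈ A, f n = ρ ∧ N A f ≤ ρ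

/-- the functional `R` -/
noncomputable def R (A : Finset V) : ℝ := sSup {ρ | G A ρ}

theorem E_sub {A T : Finset V} (h : A ⊆ T) (a b c d : V → ℝ)
    (ha : ∀ n, n ∉ A → a n = 0) (hb : ∀ n, n ∉ A → b n = 0) (hc : ∀ n, n ∉ A → c n = 0)
    (hd : ∀ n, n ∉ A → d n = 0) : E T a b c d = E A a b c d := by
  unfold E
  symm
  have h4 : ∀ w x y, (∑ z ∈ A, if w + x = y + z then a w * b x * (c y * d z) else 0) =
      ∑ z ∈ T, if w + x = y + z then a w * b x * (c y * d z) else 0 := fun w x y =>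
    Finset.sum_subset h fun z _ hz => by rw [hd z hz]; simp
  have h3 : ∀ w x, (∑ y ∈ A, ∑ z ∈ T, if w + x = y + z then a w * b x * (c y * d z) else 0) =
      ∑ y ∈ T, ∑ z ∈ T, if w + x = y + z then a w * b x * (c y * d z) else 0 := fun w x =>
    Finset.sum_subset h fun y _ hy => by rw [hc y hy]; simp
  have h2 : ∀ w, (∑ x ∈ A, ∑ y ∈ T, ∑ z ∈ T,
      if w + x = y + z then a w * b x * (c y * d z) else 0) =
      ∑ x ∈ T, ∑ y ∈ T, ∑ z ∈ T, if w + x = y + z then a w * b x * (c y * d z) else 0 :=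
    fun w => Finset.sum_subset h fun x _ hx => by rw [hb x hx]; simp
  have h1 : (∑ w ∈ A, ∑ x ∈ T, ∑ y ∈ T, ∑ z ∈ T,
      if w + x = y + z then a w * b x * (c y * d z) else 0) =
      ∑ w ∈ T, ∑ x ∈ T, ∑ y ∈ T, ∑ z ∈ T,
        if w + x = y + z then a w * b x * (c y * d z) else 0 :=
    Finset.sum_subset h fun w _ hw => by rw [ha w hw]; simp
  rw [← h1]
  refine Finset.sum_congr rfl fun w _ => ?_
  rw [← h2]
  refine Finset.sum_congr rfl fun x _ => ?_
  rw [← h3]
  refine Finset.sum_congr rfl fun y _ => ?_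
  rw [← h4]

theorem N_sub {A T : Finset V} (h : A ⊆ T) (f : V → ℝ) (hf : ∀ n, n ∉ A → f n = 0) :
    N T f = N A f := by
  unfold N
  rw [E_sub h f f f f hf hf hf hf]

theorem G_zero (A : Finset V) : G A 0 := by
  refine ⟨fun _ => 0, fun _ => le_rfl, fun _ _ => rfl, by simp, ?_⟩
  have : E A (fun _ => (0 : ℝ)) (fun _ => 0) (fun _ => 0) (fun _ => 0) = 0 := by
    apply E_zero
    intro w x y z _
    ring
  unfold N
  rw [this, Real.sqrt_zero]

theorem G_one {A : Finset V} {a : V} (ha : a ∈ A) : G A 1 := by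
  classical
  refine ⟨fun n => if n = a then 1 else 0, fun n => ?_, fun n hn => ?_, ?_, ?_⟩
  · show (0 : ℝ) ≤ if n = a then 1 else 0
    split_ifs <;> norm_num
  · show (if n = a then (1 : ℝ) else 0) = 0
    rw [if_neg]
    intro h
    rw [h] at hn
    exact hn ha
  · rw [Finset.sum_ite_eq' A a (fun _ => (1 : ℝ)), if_pos ha]
  · have hz : ∀ n, n ∉ ({a} : Finset V) → (if n = a then (1 : ℝ) else 0) = 0 := fun n hn =>
      if_neg (fun h => hn (Finset.mem_singleton.2 h))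
    rw [N_sub (Finset.singleton_subset_iff.2 ha) _ hz]
    have : E {a} (fun n => if n = a then (1 : ℝ) else 0) (fun n => if n = a then (1 : ℝ) else 0)
        (fun n => if n = a then (1 : ℝ) else 0) (fun n => if n = a then (1 : ℝ) else 0) = 1 := by
      unfold E
      simp
    unfold N
    rw [this, Real.sqrt_one]

theorem G_nonneg {A : Finset V} {ρ : ℝ} (h : G A ρ) : 0 ≤ ρ := by
  obtain ⟨f, h1, _, h3, _⟩ := h
  rw [← h3]
  exact Finset.sum_nonneg fun n _ => h1 n

theorem G_sub {A' A : Finset V} (h : A' ⊆ A) {ρ : ℝ} (hG : G A' ρ) : G A ρ := by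
  obtain ⟨f, h1, h2, h3, h4⟩ := hG
  refine ⟨f, h1, fun n hn => h2 n (fun h' => hn (h h')), ?_, ?_⟩
  · rw [← h3]
    exact (Finset.sum_subset h fun n _ hn => h2 n hn).symm
  · rw [N_sub h f h2]
    exact h4

theorem G_comb {A A₀ A₁ : Finset V} (h0 : A₀ ⊆ A) (h1 : A₁ ⊆ A)
    (hm : ∀ a ∈ A₀, ∀ b ∈ A₁, ∀ c ∈ A₁, ∀ d ∈ A₁, a + b ≠ c + d) {ρ σ : ℝ} (hρ : G A₁ ρ) (hσ : G A₀ σ) :
    G A (ρ + σ / 3) := by
  obtain ⟨g, g1, g2, g3, g4⟩ := hρ
  obtain ⟨f, f1, f2, f3, f4⟩ := hσ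
  have g2' : ∀ n, n ∉ A → g n = 0 := fun n hn => g2 n (fun h' => hn (h1 h'))
  have f2' : ∀ n, n ∉ A → f n = 0 := fun n hn => f2 n (fun h' => hn (h0 h'))
  refine ⟨fun n => g n + 1 / 3 * f n, fun n => ?_, fun n hn => ?_, ?_, ?_⟩
  · have := g1 n
    have := f1 n
    positivity
  · show g n + 1 / 3 * f n = 0
    rw [g2' n hn, f2' n hn]; ring
  · rw [Finset.sum_add_distrib, ← Finset.mul_sum]
    have e1 : ∑ n ∈ A, g n = ρ := by
      rw [← g3]; exact (Finset.sum_subset h1 fun n _ hn => g2 n hn).symm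
    have e2 : ∑ n ∈ A, f n = σ := by
      rw [← f3]; exact (Finset.sum_subset h0 fun n _ hn => f2 n hn).symm
    rw [e1, e2]; ring
  · have hS : Sep g f := by
      intro a b c d ha hb hc hd
      apply hm a _ b _ c _ d _
      · by_contra h'; exact ha (f2 a h')
      · by_contra h'; exact hb (g2 b h')
      · by_contra h'; exact hc (g2 c h')
      · by_contra h'; exact hd (g2 d h')
    have h2 := al3 A (hS.smul (1 / 3))
    rw [N_smul A f (1 / 3), N_sub h1 g g2, N_sub h0 f f2] at h2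
    linarith

/-- the energy bound for the sumset -/
theorem G_mul_le {A B : Finset V} {ρ σ : ℝ} (hρ : G A ρ) (hσ : G B σ) :
    ρ * σ ≤ ((A + B).card : ℝ) ∧ ρ * σ ≤ ((A - B).card : ℝ) := by
  classical
  have hρ0 := G_nonneg hρ
  have hσ0 := G_nonneg hσ
  obtain ⟨f, f1, f2, f3, f4⟩ := hρ
  obtain ⟨g, g1, g2, g3, g4⟩ := hσ
  -- the cross energy
  set T : Finset V := A ∪ B with hT
  have hA : A ⊆ T := Finset.subset_union_left
  have hB : B ⊆ T := Finset.subset_union_right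
  have hcross : E T f g f g ≤ ρ * σ := by
    refine (E_ab T f g).trans ?_
    rw [N_sub hA f f2, N_sub hB g g2]
    exact mul_le_mul f4 g4 (N_nonneg _ _) hρ0
  -- general labels
  have key : ∀ (l : V × V → V) (L : Finset V), (∀ p ∈ A ×ˢ B, l p ∈ L) →
      (∑ p ∈ A ×ˢ B, ∑ q ∈ A ×ˢ B, if l p = l q then (f p.1 * g p.2) * (f q.1 * g q.2) else 0) ≤
        ρ * σ → ρ * σ ≤ (L.card : ℝ) := by
    intro l L hL hle
    rw [lab (A ×ˢ B) (A ×ˢ B) l l (fun p => f p.1 * g p.2) (fun p => f p.1 * g p.2) L hL] at hle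
    have h1 : ρ * σ = ∑ s ∈ L, ∑ p ∈ A ×ˢ B, if l p = s then f p.1 * g p.2 else 0 := by
      rw [Finset.sum_comm]
      rw [← f3, ← g3, Finset.sum_mul_sum, ← Finset.sum_product']
      refine Finset.sum_congr rfl fun p hp => ?_
      rw [Finset.sum_ite_eq, if_pos (hL p hp)]
    have h2 := sq_sum_le_card_mul_sum_sq (s := L)
      (f := fun s => ∑ p ∈ A ×ˢ B, if l p = s then f p.1 * g p.2 else 0)
    rw [← h1] at h2
    have h3 : (ρ * σ) ^ 2 ≤ (L.card : ℝ) * (ρ * σ) := by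
      refine h2.trans (mul_le_mul_of_nonneg_left ?_ (Nat.cast_nonneg _))
      simpa only [sq] using hle
    rcases (mul_nonneg hρ0 hσ0).eq_or_lt with h | h
    · rw [← h]; exact Nat.cast_nonneg _
    · rw [sq] at h3
      exact le_of_mul_le_mul_right h3 h
  -- reduction of a sum over `A ×ˢ B` to a sum over `T ×ˢ T`
  have hsub : A ×ˢ B ⊆ T ×ˢ T := Finset.product_subset_product hA hB
  have hvan : ∀ p ∈ T ×ˢ T, p ∉ A ×ˢ B → f p.1 * g p.2 = 0 := by
    intro p _ hp
    rw [Finset.mem_product, not_and_or] at hp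
    rcases hp with h | h
    · rw [f2 _ h, zero_mul]
    · rw [g2 _ h, mul_zero]
  have hred : ∀ (l : V × V → V),
      (∑ p ∈ A ×ˢ B, ∑ q ∈ A ×ˢ B, if l p = l q then (f p.1 * g p.2) * (f q.1 * g q.2) else 0) =
      ∑ p ∈ T ×ˢ T, ∑ q ∈ T ×ˢ T, if l p = l q then (f p.1 * g p.2) * (f q.1 * g q.2) else 0 := by
    intro l
    have e1 : ∀ p : V × V, (∑ q ∈ A ×ˢ B,
        if l p = l q then (f p.1 * g p.2) * (f q.1 * g q.2) else 0) =
        ∑ q ∈ T ×ˢ T, if l p = l q then (f p.1 * g p.2) * (f q.1 * g q.2) else 0 := fun p =>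
      Finset.sum_subset hsub fun q hq hq' => by rw [hvan q hq hq']; simp
    rw [Finset.sum_congr rfl fun p _ => e1 p]
    exact Finset.sum_subset hsub fun p hp hp' => by rw [hvan p hp hp']; simp
  constructor
  · apply key (fun p => p.1 + p.2) (A + B)
    · intro p hp
      rw [Finset.mem_product] at hp
      exact Finset.add_mem_add hp.1 hp.2
    · rw [hred]
      refine le_of_eq_of_le ?_ hcross
      rw [E_pairs]
  · apply key (fun p => p.1 - p.2) (A - B)
    · intro p hp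
      rw [Finset.mem_product] at hp
      exact Finset.sub_mem_sub hp.1 hp.2
    · rw [hred]
      refine le_of_eq_of_le ?_ hcross
      -- relabel
      rw [Finset.sum_product]
      unfold E
      refine Finset.sum_congr rfl fun w _ => ?_
      have h1 : ∀ y ∈ T, (∑ q ∈ T ×ˢ T,
          if (w, y).1 - (w, y).2 = q.1 - q.2 then
            (f (w, y).1 * g (w, y).2) * (f q.1 * g q.2) else 0) =
          ∑ u ∈ T, ∑ v ∈ T, if w - y = u - v then (f w * g y) * (f u * g v) else 0 := by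
        intro y _
        rw [Finset.sum_product]
      rw [Finset.sum_congr rfl h1]
      -- LHS: ∑ y ∑ u ∑ v [w - y = u - v];  RHS: ∑ x ∑ u ∑ v [w + x = u + v]
      have h2 : (∑ y ∈ T, ∑ u ∈ T, ∑ v ∈ T,
          if w - y = u - v then (f w * g y) * (f u * g v) else 0) =
          ∑ v ∈ T, ∑ u ∈ T, ∑ y ∈ T,
            if w - y = u - v then (f w * g y) * (f u * g v) else 0 := by
        have e1 : ∀ y ∈ T, (∑ u ∈ T, ∑ v ∈ T,
            if w - y = u - v then (f w * g y) * (f u * g v) else 0) =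
            ∑ v ∈ T, ∑ u ∈ T, if w - y = u - v then (f w * g y) * (f u * g v) else 0 :=
          fun y _ => Finset.sum_comm
        rw [Finset.sum_congr rfl e1, Finset.sum_comm]
        refine Finset.sum_congr rfl fun v _ => ?_
        rw [Finset.sum_comm]
      rw [h2]
      refine Finset.sum_congr rfl fun v _ => Finset.sum_congr rfl fun u _ =>
        Finset.sum_congr rfl fun y _ => ?_
      by_cases h : w - y = u - v
      · rw [if_pos h, if_pos (show w + v = u + y by rw [sub_eq_sub_iff_add_eq_add] at h; exact h)]; ring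
      · rw [if_neg h, if_neg (fun h' => h (by rw [sub_eq_sub_iff_add_eq_add]; exact h'))]

theorem bdd {A : Finset V} (hA : A.Nonempty) : BddAbove {ρ | G A ρ} := by
  obtain ⟨a, ha⟩ := hA
  refine ⟨((A + A).card : ℝ), fun ρ hρ => ?_⟩
  have := (G_mul_le hρ (G_one ha)).1
  rwa [mul_one] at this

theorem one_le_R {A : Finset V} (hA : A.Nonempty) : 1 ≤ R A := by
  obtain ⟨a, ha⟩ := hA
  exact le_csSup (bdd ⟨a, ha⟩) (G_one ha)

theorem R_sub {A' A : Finset V} (hA' : A'.Nonempty) (h : A' ⊆ A) : R A' ≤ R A :=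
  csSup_le_csSup (bdd (hA'.mono h)) ⟨0, G_zero A'⟩ fun _ hρ => G_sub h hρ

theorem R_comb {A A₀ A₁ : Finset V} (hA0 : A₀.Nonempty) (h0 : A₀ ⊆ A) (h1 : A₁ ⊆ A)
    (hm : ∀ a ∈ A₀, ∀ b ∈ A₁, ∀ c ∈ A₁, ∀ d ∈ A₁, a + b ≠ c + d) :
    R A₁ + R A₀ / 3 ≤ R A := by
  have key : ∀ σ, G A₀ σ → R A₁ ≤ R A - σ / 3 := by
    intro σ hσ
    apply csSup_le ⟨0, G_zero A₁⟩
    intro ρ hρ
    have := le_csSup (bdd (hA0.mono h0)) (G_comb h0 h1 hm hρ hσ)
    change ρ + σ / 3 ≤ R A at this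
    linarith
  have : R A₀ ≤ 3 * (R A - R A₁) := by
    apply csSup_le ⟨0, G_zero A₀⟩
    intro σ hσ
    have := key σ hσ
    linarith
  linarith

theorem R_mul_le {A B : Finset V} (hA : A.Nonempty) (hB : B.Nonempty) :
    R A * R B ≤ ((A + B).card : ℝ) ∧ R A * R B ≤ ((A - B).card : ℝ) := by
  have hRA := one_le_R hA
  have hRB := one_le_R hB
  have key : ∀ c : ℝ, (∀ ρ σ, G A ρ → G B σ → ρ * σ ≤ c) → R A * R B ≤ c := by
    intro c hc
    have h1 : ∀ σ, G B σ → 0 < σ → R A ≤ c / σ := by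
      intro σ hσ hpos
      apply csSup_le ⟨0, G_zero A⟩
      intro ρ hρ
      rw [le_div_iff₀ hpos]
      exact hc ρ σ hρ hσ
    have hc1 : R A ≤ c := by
      obtain ⟨b, hb⟩ := hB
      have := h1 1 (G_one hb) one_pos
      rwa [div_one] at this
    have h2 : R B ≤ c / R A := by
      apply csSup_le ⟨0, G_zero B⟩
      intro σ hσ
      rcases (G_nonneg hσ).eq_or_lt with h | h
      · rw [← h]; exact div_nonneg (by linarith) (by linarith)
      · rw [le_div_iff₀ (by linarith)]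
        have := h1 σ hσ h
        rw [le_div_iff₀ h] at this
        linarith
    rw [le_div_iff₀ (by linarith)] at h2
    linarith
  exact ⟨key _ fun ρ σ hρ hσ => (G_mul_le hρ hσ).1, key _ fun ρ σ hρ hσ => (G_mul_le hρ hσ).2⟩

end Pool.Agent.H452R3.SPR
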