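import Mathlib
import Pool.Agent.H633R4.SP.OS
import Pool.Agent.H452R3.SPR.Fu

/-!
The main induction `κ * (P A * P B) ≤ |A * B|` over an arbitrary family of places of a commutative ring
(adapted from helper633's proof over the integers).
-/

set_option autoImplicit false
set_option linter.unusedSectionVars false

namespace Pool.Agent.H452R3.SPR

open Finset
open scoped Pointwise
open H633R4.SP (q4 q4_nonneg q4_pow q4_pos os step_one step_two)

variable {V : Type*} [CommRing V] [DecidableEq V]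

/-- the fourth root of `|A| ^ 3 / R A` -/
noncomputable def P (A : Finset V) : ℝ := q4 (A.card : ℝ) (R A)

theorem P_nonneg (A : Finset V) : 0 ≤ P A := q4_nonneg _ _

theorem P_pos {A : Finset V} (hA : A.Nonempty) : 0 < P A :=
  q4_pos (by exact_mod_cast hA.card_pos) (lt_of_lt_of_le one_pos (one_le_R hA))

theorem P_pow {A : Finset V} (hA : A.Nonempty) : P A ^ 4 = (A.card : ℝ) ^ 3 / R A :=
  q4_pow (Nat.cast_nonneg _) (le_trans zero_le_one (one_le_R hA))

/-- the classes of `ν` on `X` are separated: an element of a class is not a sum of three elements (with signs) of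
lower classes -/
def SepOn (X : Set V) (ν : V → ℤ) : Prop :=
  ∀ a ∈ X, ∀ b ∈ X, ∀ c ∈ X, ∀ d ∈ X, ν b < ν a → ν c < ν a → ν d < ν a → a + b ≠ c + d

/-- products of elements of top classes are not products with an element of a lower class -/
def MulOn (X Y : Set V) (ν : V → ℤ) : Prop :=
  ∀ a ∈ X, ∀ b ∈ Y, ∀ a' ∈ X, ∀ b' ∈ Y, ν a' ≤ ν a → ν b' ≤ ν b → (ν a' < ν a ∨ ν b' < ν b) → a * b ≠ a' * b'

/-- splitting off the highest class -/
theorem split (ν : V → ℤ) (A : Finset V) (hA : A.Nonempty) (hs : SepOn (A : Set V) ν) :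
    ∃ k : ℤ, ∃ A₀ A' : Finset V, A₀.Nonempty ∧ A₀ ⊆ A ∧ A' ⊆ A ∧ A₀.card + A'.card = A.card ∧
      (∀ a ∈ A₀, ν a = k) ∧ (∀ a ∈ A', ν a < k) ∧
      (∀ a ∈ A, ν a ≤ k) ∧ (A' = ∅ → A₀ = A) ∧
      (A'.Nonempty → P A ^ 2 ≤ P A₀ ^ 2 + P A' * P A) := by
  classical
  obtain ⟨a₀, ha₀, hmax⟩ := Finset.exists_max_image A ν hA
  have hne : (A.filter (fun a => ν a = ν a₀)).Nonempty :=
    ⟨a₀, Finset.mem_filter.2 ⟨ha₀, rfl⟩⟩
  have hcard : (A.filter (fun a => ν a = ν a₀)).card +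
      (A.filter (fun a => ¬ ν a = ν a₀)).card = A.card :=
    Finset.card_filter_add_card_filter_not (s := A) (fun a => ν a = ν a₀)
  refine ⟨ν a₀, A.filter (fun a => ν a = ν a₀), A.filter (fun a => ¬ ν a = ν a₀),
    hne, Finset.filter_subset _ _, Finset.filter_subset _ _,
    hcard, fun a ha => (Finset.mem_filter.1 ha).2, fun a ha => ?_, hmax, fun h => ?_,
    fun hne' => ?_⟩
  · rw [Finset.mem_filter] at ha
    exact lt_of_le_of_ne (hmax a ha.1) ha.2
  · rw [Finset.filter_eq_empty_iff] at h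
    rw [Finset.filter_eq_self]
    intro a ha
    have := h ha
    exact not_not.1 this
  · have hcomb : R (A.filter (fun a => ¬ ν a = ν a₀)) + R (A.filter (fun a => ν a = ν a₀)) / 3 ≤ R A := by
      apply R_comb hne (Finset.filter_subset _ _) (Finset.filter_subset _ _)
      intro a ha b hb c hc d hd
      rw [Finset.mem_filter] at ha hb hc hd
      have hb' := lt_of_le_of_ne (hmax b hb.1) hb.2
      have hc' := lt_of_le_of_ne (hmax c hc.1) hc.2
      have hd' := lt_of_le_of_ne (hmax d hd.1) hd.2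
      rw [← ha.2] at hb' hc' hd'
      exact hs a (Finset.mem_coe.2 ha.1) b (Finset.mem_coe.2 hb.1) c (Finset.mem_coe.2 hc.1) d (Finset.mem_coe.2 hd.1) hb' hc' hd'
    have hsub := R_sub hne (Finset.filter_subset (fun a => ν a = ν a₀) A)
    have h := os (a₀ := ((A.filter (fun a => ν a = ν a₀)).card : ℝ))
      (a' := ((A.filter (fun a => ¬ ν a = ν a₀)).card : ℝ))
      (by exact_mod_cast hne.card_pos) (by exact_mod_cast hne'.card_pos)
      (lt_of_lt_of_le one_pos (one_le_R hne)) (lt_of_lt_of_le one_pos (one_le_R hne'))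
      hsub hcomb
    have e : ((A.filter (fun a => ν a = ν a₀)).card : ℝ) +
        ((A.filter (fun a => ¬ ν a = ν a₀)).card : ℝ) = (A.card : ℝ) := by
      exact_mod_cast hcard
    rw [e] at h
    exact h

theorem card_split {U U' W : Finset V} (hU : U ⊆ W) (hV : U' ⊆ W)
    (hd : ∀ u ∈ U, ∀ v ∈ U', u ≠ v) :
    (U.card : ℝ) + (U'.card : ℝ) ≤ (W.card : ℝ) := by
  classical
  have hd : Disjoint U U' := by
    rw [Finset.disjoint_left]
    intro u hu hv
    exact hd u hu u hv rfl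
  have : U.card + U'.card ≤ W.card := by
    rw [← Finset.card_union_of_disjoint hd]
    exact Finset.card_le_card (Finset.union_subset hU hV)
  exact_mod_cast this

theorem main (X Y : Set V) (F : Set (V → ℤ)) (hX : ∀ ν ∈ F, SepOn X ν) (hY : ∀ ν ∈ F, SepOn Y ν)
    (hXY : ∀ ν ∈ F, MulOn X Y ν) (κ : ℝ) (hκ : 0 ≤ κ)
    (hbase : ∀ A B : Finset V, A.Nonempty → B.Nonempty → (∀ a ∈ A, a ∈ X) → (∀ b ∈ B, b ∈ Y) →
      (∀ ν ∈ F, ∀ a ∈ A, ∀ a' ∈ A, ν a = ν a') → (∀ ν ∈ F, ∀ b ∈ B, ∀ b' ∈ B, ν b = ν b') →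
      κ * (P A * P B) ≤ ((A * B).card : ℝ)) :
    ∀ n : ℕ, ∀ A B : Finset V, A.card + B.card ≤ n → A.Nonempty → B.Nonempty →
      (∀ a ∈ A, a ∈ X) → (∀ b ∈ B, b ∈ Y) → κ * (P A * P B) ≤ ((A * B).card : ℝ) := by
  intro n
  induction n with
  | zero =>
    intro A B hn hA _ _ _
    have := hA.card_pos
    omega
  | succ n ih =>
    intro A B hn hA hB hAX hBX
    by_cases hcase : ∀ ν ∈ F, (∀ a ∈ A, ∀ a' ∈ A, ν a = ν a') ∧ (∀ b ∈ B, ∀ b' ∈ B, ν b = ν b')
    · exact hbase A B hA hB hAX hBX (fun ν hν => (hcase ν hν).1) (fun ν hν => (hcase ν hν).2)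
    · simp only [not_forall] at hcase
      obtain ⟨ν, hν, hnc⟩ := hcase
      obtain ⟨k, A₀, A', hA₀, hA₀A, hA'A, hcA, hvA₀, hvA', hvA, heA, hOSA⟩ :=
        split ν A hA (fun a ha b hb c hc d hd => hX ν hν a (hAX a ha) b (hAX b hb) c (hAX c hc) d (hAX d hd))
      obtain ⟨l, B₀, B', hB₀, hB₀B, hB'B, hcB, hvB₀, hvB', hvB, heB, hOSB⟩ :=
        split ν B hB (fun a ha b hb c hc d hd => hY ν hν a (hBX a ha) b (hBX b hb) c (hBX c hc) d (hBX d hd))
      have hcA₀ := hA₀.card_pos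
      have hcB₀ := hB₀.card_pos
      -- products
      have hd1 : ∀ u ∈ A₀ * B₀, ∀ v ∈ A' * B, u ≠ v := by
        intro u hu v hv
        obtain ⟨a, ha, b, hb, rfl⟩ := Finset.mem_mul.1 hu
        obtain ⟨a', ha', b', hb', rfl⟩ := Finset.mem_mul.1 hv
        have h1 := hvA₀ a ha
        have h2 := hvB₀ b hb
        have h3 := hvA' a' ha'
        have h4 := hvB b' hb'
        exact hXY ν hν a (hAX a (hA₀A ha)) b (hBX b (hB₀B hb)) a' (hAX a' (hA'A ha')) b' (hBX b' hb')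
          (by omega) (by omega) (Or.inl (by omega))
      have hd2 : ∀ u ∈ A₀ * B₀, ∀ v ∈ A * B', u ≠ v := by
        intro u hu v hv
        obtain ⟨a, ha, b, hb, rfl⟩ := Finset.mem_mul.1 hu
        obtain ⟨a', ha', b', hb', rfl⟩ := Finset.mem_mul.1 hv
        have h1 := hvA₀ a ha
        have h2 := hvB₀ b hb
        have h3 := hvA a' ha'
        have h4 := hvB' b' hb'
        exact hXY ν hν a (hAX a (hA₀A ha)) b (hBX b (hB₀B hb)) a' (hAX a' ha') b' (hBX b' (hB'B hb'))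
          (by omega) (by omega) (Or.inr (by omega))
      have hs0 : A₀ * B₀ ⊆ A * B := Finset.mul_subset_mul hA₀A hB₀B
      have hs1 : A' * B ⊆ A * B := Finset.mul_subset_mul hA'A subset_rfl
      have hs2 : A * B' ⊆ A * B := Finset.mul_subset_mul subset_rfl hB'B
      have hc1 := card_split hs0 hs1 hd1
      have hc2 := card_split hs0 hs2 hd2
      have hXA₀ : ∀ a ∈ A₀, a ∈ X := fun a ha => hAX a (hA₀A ha)
      have hXA' : ∀ a ∈ A', a ∈ X := fun a ha => hAX a (hA'A ha)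
      have hXB₀ : ∀ b ∈ B₀, b ∈ Y := fun b hb => hBX b (hB₀B hb)
      have hXB' : ∀ b ∈ B', b ∈ Y := fun b hb => hBX b (hB'B hb)
      rcases A'.eq_empty_or_nonempty with hA' | hA'
      · have hA₀e := heA hA'
        rcases B'.eq_empty_or_nonempty with hB' | hB'
        · exfalso
          have hB₀e := heB hB'
          apply hnc
          constructor
          · intro a ha a' ha'
            rw [hvA₀ a (hA₀e ▸ ha), hvA₀ a' (hA₀e ▸ ha')]
          · intro b hb b' hb'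
            rw [hvB₀ b (hB₀e ▸ hb), hvB₀ b' (hB₀e ▸ hb')]
        · -- only `B` splits
          have hcB' := hB'.card_pos
          rw [hA₀e] at hc2
          have ih1 := ih A B₀ (by omega) hA hB₀ hAX hXB₀
          have ih2 := ih A B' (by omega) hA hB' hAX hXB'
          have := step_one (P_nonneg A) (P_pos hB) (P_nonneg B₀) (P_nonneg B') hκ (hOSB hB')
            ih1 ih2
          linarith
      · have hcA' := hA'.card_pos
        rcases B'.eq_empty_or_nonempty with hB' | hB'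
        · -- only `A` splits
          have hB₀e := heB hB'
          rw [hB₀e] at hc1
          have ih1 := ih A₀ B (by omega) hA₀ hB hXA₀ hBX
          have ih2 := ih A' B (by omega) hA' hB hXA' hBX
          rw [mul_comm (P A₀)] at ih1
          rw [mul_comm (P A')] at ih2
          have := step_one (P_nonneg B) (P_pos hA) (P_nonneg A₀) (P_nonneg A') hκ (hOSA hA')
            ih1 ih2
          rw [mul_comm (P A)]
          linarith
        · have hcB' := hB'.card_pos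
          have ih0 := ih A₀ B₀ (by omega) hA₀ hB₀ hXA₀ hXB₀
          have ih1 := ih A' B (by omega) hA' hB hXA' hBX
          have ih2 := ih A B' (by omega) hA hB' hAX hXB'
          have := step_two (N₀ := ((A₀ * B₀).card : ℝ))
            (M := ((A * B).card : ℝ) - ((A₀ * B₀).card : ℝ))
            (P_pos hA) (P_pos hB) (P_nonneg A₀) (P_nonneg B₀) hκ
            (hOSA hA') (hOSB hB') ih0 (by linarith) (by linarith) (Nat.cast_nonneg _)
          linarith

/-- the energy form of the main theorem -/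
theorem main_R (X Y : Set V) (F : Set (V → ℤ)) (hX : ∀ ν ∈ F, SepOn X ν) (hY : ∀ ν ∈ F, SepOn Y ν)
    (hXY : ∀ ν ∈ F, MulOn X Y ν) (C : ℝ) (hC : 0 < C)
    (hbase : ∀ A B : Finset V, A.Nonempty → B.Nonempty → (∀ a ∈ A, a ∈ X) → (∀ b ∈ B, b ∈ Y) →
      (∀ ν ∈ F, ∀ a ∈ A, ∀ a' ∈ A, ν a = ν a') → (∀ ν ∈ F, ∀ b ∈ B, ∀ b' ∈ B, ν b = ν b') →
      ((A.card : ℝ) * B.card) ^ 3 ≤ C * ((A * B).card : ℝ) ^ 4)
    (A B : Finset V) (hA : A.Nonempty) (hB : B.Nonempty) (hAX : ∀ a ∈ A, a ∈ X)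
    (hBX : ∀ b ∈ B, b ∈ Y) :
    ((A.card : ℝ) * B.card) ^ 3 ≤ C * (R A * R B) * ((A * B).card : ℝ) ^ 4 := by
  set κ : ℝ := Real.sqrt (Real.sqrt (1 / C)) with hκdef
  have hκ : 0 ≤ κ := Real.sqrt_nonneg _
  have hκ4 : κ ^ 4 = 1 / C := by
    have e : κ ^ 4 = (κ ^ 2) ^ 2 := by ring
    rw [e, hκdef, Real.sq_sqrt (Real.sqrt_nonneg _), Real.sq_sqrt (by positivity)]
  have key : ∀ A B : Finset V, A.Nonempty → B.Nonempty →
      (κ * (P A * P B)) ^ 4 = 1 / C * (((A.card : ℝ) * B.card) ^ 3 / (R A * R B)) := by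
    intro A B hA hB
    rw [mul_pow, mul_pow, hκ4, P_pow hA, P_pow hB, mul_pow, div_mul_div_comm]
  have h := main X Y F hX hY hXY κ hκ (by
    intro A B hA hB hAX hBX ha hb
    have h1 := hbase A B hA hB hAX hBX ha hb
    have hRA := one_le_R hA
    have hRB := one_le_R hB
    apply le_of_pow_le_pow_left₀ (n := 4) (by norm_num) (Nat.cast_nonneg _)
    rw [key A B hA hB]
    have hRR : 1 ≤ R A * R B := by nlinarith
    have h2 : ((A.card : ℝ) * B.card) ^ 3 / (R A * R B) ≤ ((A.card : ℝ) * B.card) ^ 3 :=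
      div_le_self (by positivity) hRR
    calc 1 / C * (((A.card : ℝ) * B.card) ^ 3 / (R A * R B))
        ≤ 1 / C * (C * ((A * B).card : ℝ) ^ 4) :=
          mul_le_mul_of_nonneg_left (h2.trans h1) (by positivity)
      _ = ((A * B).card : ℝ) ^ 4 := by field_simp) (A.card + B.card) A B le_rfl hA hB hAX hBX
  have h1 := pow_le_pow_left₀ (mul_nonneg hκ (mul_nonneg (P_nonneg A) (P_nonneg B))) h 4
  rw [key A B hA hB] at h1
  have hRA := one_le_R hA
  have hRB := one_le_R hB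
  have hRR : 0 < R A * R B := by nlinarith
  have e : 1 / C * (((A.card : ℝ) * B.card) ^ 3 / (R A * R B)) =
      ((A.card : ℝ) * B.card) ^ 3 / (C * (R A * R B)) := by
    field_simp
  rw [e, div_le_iff₀ (by positivity)] at h1
  linarith

/-- the sum-product inequality from places with small base sets -/
theorem fin_places (X Y : Set V) (F : Set (V → ℤ)) (hX : ∀ ν ∈ F, SepOn X ν) (hY : ∀ ν ∈ F, SepOn Y ν)
    (hXY : ∀ ν ∈ F, MulOn X Y ν) (C : ℝ) (hC : 0 < C)
    (hbase : ∀ A B : Finset V, A.Nonempty → B.Nonempty → (∀ a ∈ A, a ∈ X) → (∀ b ∈ B, b ∈ Y) →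
      (∀ ν ∈ F, ∀ a ∈ A, ∀ a' ∈ A, ν a = ν a') → (∀ ν ∈ F, ∀ b ∈ B, ∀ b' ∈ B, ν b = ν b') →
      ((A.card : ℝ) * B.card) ^ 3 ≤ C * ((A * B).card : ℝ) ^ 4)
    (A B : Finset V) (hAX : ∀ a ∈ A, a ∈ X) (hBX : ∀ b ∈ B, b ∈ Y) :
    ((A.card : ℝ) * B.card) ^ 3 ≤ C * (((A + B).card : ℝ) * ((A * B).card : ℝ) ^ 4) ∧
    ((A.card : ℝ) * B.card) ^ 3 ≤ C * (((A - B).card : ℝ) * ((A * B).card : ℝ) ^ 4) := by
  rcases A.eq_empty_or_nonempty with hA | hA
  · subst hA; simp
  rcases B.eq_empty_or_nonempty with hB | hB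
  · subst hB; simp
  have h := main_R X Y F hX hY hXY C hC hbase A B hA hB hAX hBX
  obtain ⟨h1, h2⟩ := R_mul_le hA hB
  have hP : (0 : ℝ) ≤ ((A * B).card : ℝ) ^ 4 := by positivity
  constructor
  · calc ((A.card : ℝ) * B.card) ^ 3 ≤ C * (R A * R B) * ((A * B).card : ℝ) ^ 4 := h
      _ ≤ C * ((A + B).card : ℝ) * ((A * B).card : ℝ) ^ 4 :=
        mul_le_mul_of_nonneg_right (mul_le_mul_of_nonneg_left h1 hC.le) hP
      _ = C * (((A + B).card : ℝ) * ((A * B).card : ℝ) ^ 4) := by ring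
  · calc ((A.card : ℝ) * B.card) ^ 3 ≤ C * (R A * R B) * ((A * B).card : ℝ) ^ 4 := h
      _ ≤ C * ((A - B).card : ℝ) * ((A * B).card : ℝ) ^ 4 :=
        mul_le_mul_of_nonneg_right (mul_le_mul_of_nonneg_left h2 hC.le) hP
      _ = C * (((A - B).card : ℝ) * ((A * B).card : ℝ) ^ 4) := by ring

end Pool.Agent.H452R3.SPR
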