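import Mathlib

namespace Pool.Agent.H452R3.SPR

open NumberField in
theorem NC_aux {K : Type} [Field K] [NumberField K] (w : K) (hw : w ≠ 0) (hint : IsIntegral ℤ w)
    (hsm : ∀ σ : K →+* ℂ, ‖σ w‖ < 1) : False := by
  let a : 𝓞 K := ⟨w, hint⟩
  have ha : a ≠ 0 := by
    intro h
    apply hw
    have := congrArg (algebraMap (𝓞 K) K) h
    simpa [a] using this
  obtain ⟨v⟩ := (inferInstance : Nonempty (InfinitePlace K))
  have hlt : ∀ z : InfinitePlace K, z (a : K) < 1 := by
    intro z
    rw [← InfinitePlace.norm_embedding_eq]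
    exact hsm z.embedding
  have h1 := InfinitePlace.one_le_of_lt_one (w := v) ha (fun z _ => hlt z)
  exact absurd (hlt v) (not_lt.2 h1)

/-- Task NC: algebraic integers with all conjugates of modulus less than 3 -/
theorem card_small {K : Type} [Field K] [NumberField K] (U : Finset K) (hint : ∀ u ∈ U, IsIntegral ℤ u)
    (hsm : ∀ u ∈ U, ∀ σ : K →+* ℂ, ‖σ u‖ < 3) : U.card ≤ 144 ^ Module.finrank ℚ K := by
  classical
  have hcard : (Fintype.piFinset fun _ : K →+* ℂ =>
      (Finset.Icc (-6 : ℤ) 5) ×ˢ (Finset.Icc (-6 : ℤ) 5)).card = 144 ^ Module.finrank ℚ K := by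
    rw [Fintype.card_piFinset, Finset.prod_const, Finset.card_univ,
      NumberField.Embeddings.card K ℂ]
    rfl
  rw [← hcard]
  refine Finset.card_le_card_of_injOn
    (fun u σ => (⌊2 * (σ u).re⌋, ⌊2 * (σ u).im⌋)) ?_ ?_
  · intro u hu
    rw [Finset.mem_coe, Fintype.mem_piFinset]
    intro σ
    have h1 := hsm u hu σ
    have h2 := abs_lt.1 ((Complex.abs_re_le_norm (σ u)).trans_lt h1)
    have h3 := abs_lt.1 ((Complex.abs_im_le_norm (σ u)).trans_lt h1)
    simp only [Finset.mem_product, Finset.mem_Icc]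
    refine ⟨⟨?_, ?_⟩, ⟨?_, ?_⟩⟩
    · rw [Int.le_floor]; push_cast; linarith
    · rw [← Int.lt_add_one_iff, Int.floor_lt]; push_cast; linarith
    · rw [Int.le_floor]; push_cast; linarith
    · rw [← Int.lt_add_one_iff, Int.floor_lt]; push_cast; linarith
  · intro u hu u' hu' h
    by_contra hne
    refine NC_aux (u - u') (sub_ne_zero.2 hne) ((hint u hu).sub (hint u' hu')) fun σ => ?_
    have h1 := congrFun h σ
    simp only [Prod.mk.injEq] at h1
    have h2 := Int.abs_sub_lt_one_of_floor_eq_floor h1.1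
    have h3 := Int.abs_sub_lt_one_of_floor_eq_floor h1.2
    rw [abs_lt] at h2 h3
    have e1 : (σ (u - u')).re = (σ u).re - (σ u').re := by rw [map_sub, Complex.sub_re]
    have e2 : (σ (u - u')).im = (σ u).im - (σ u').im := by rw [map_sub, Complex.sub_im]
    have h4 : ‖σ (u - u')‖ ^ 2 < 1 := by
      rw [← Complex.normSq_eq_norm_sq, Complex.normSq_apply, e1, e2]
      nlinarith
    have h5 := norm_nonneg (σ (u - u'))
    nlinarith

end Pool.Agent.H452R3.SPR
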