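import Mathlib

namespace Pool.Agent.H452R3.SPR.Stubs

/-- Task TA: a rational place of a purely transcendental extension at which finitely many given elements are finite -/
theorem spec_transc {E : Type} [Field E] [Algebra ℚ E] (T : Set E)
    (hT : AlgebraicIndependent ℚ ((↑) : T → E)) (Z : Finset (IntermediateField.adjoin ℚ T)) :
    ∃ (S : Subalgebra ℚ (IntermediateField.adjoin ℚ T)) (_ : S →ₐ[ℚ] ℚ), ∀ z ∈ Z, z ∈ S := by
  sorry

/-- Task TB: specialisation of a finite extension to a number field of at most the same degree -/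
theorem spec_finite {F E : Type} [Field F] [Field E] [Algebra ℚ F] [Algebra F E] [FiniteDimensional F E]
    (hF : ∀ Z : Finset F, ∃ (S : Subalgebra ℚ F) (_ : S →ₐ[ℚ] ℚ), ∀ z ∈ Z, z ∈ S)
    (Z : Finset E) (hZ : ∀ z ∈ Z, z ≠ 0) :
    ∃ (K : Type) (_ : Field K) (_ : NumberField K) (R : Subring E) (ψ : R →+* K),
      Module.finrank ℚ K ≤ Module.finrank F E ∧ (∀ z ∈ Z, z ∈ R) ∧
      ∀ z : R, (z : E) ∈ Z → ψ z ≠ 0 := by
  sorry

/-- Task NC: algebraic integers with all conjugates of modulus less than 3 -/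
theorem card_small {K : Type} [Field K] [NumberField K] (U : Finset K) (hint : ∀ u ∈ U, IsIntegral ℤ u)
    (hsm : ∀ u ∈ U, ∀ σ : K →+* ℂ, ‖σ u‖ < 3) : U.card ≤ 144 ^ Module.finrank ℚ K := by
  sorry

end Pool.Agent.H452R3.SPR.Stubs
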