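import Mathlib

/-!
# TA: a rational place of a purely transcendental extension (helper497)
-/

namespace Pool.Agent.H452R3.SPR

namespace TAaux

open MvPolynomial

variable {E : Type} [Field E] [Algebra ℚ E] (T : Set E) (t₀ : T → ℚ)

/-- the local ring of a rational point -/
def LR : Subalgebra ℚ (IntermediateField.adjoin ℚ T) where
  carrier := {x | ∃ p q : MvPolynomial T ℚ, eval t₀ q ≠ 0 ∧
    (x : E) * aeval ((↑) : T → E) q = aeval ((↑) : T → E) p}
  mul_mem' := by
    rintro x y ⟨p, q, h1, h2⟩ ⟨p', q', h1', h2'⟩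
    refine ⟨p * p', q * q', ?_, ?_⟩
    · rw [map_mul]
      exact mul_ne_zero h1 h1'
    · rw [map_mul, map_mul, ← h2, ← h2']
      push_cast
      ring
  add_mem' := by
    rintro x y ⟨p, q, h1, h2⟩ ⟨p', q', h1', h2'⟩
    refine ⟨p * q' + p' * q, q * q', ?_, ?_⟩
    · rw [map_mul]
      exact mul_ne_zero h1 h1'
    · rw [map_mul, map_add, map_mul, map_mul, ← h2, ← h2']
      push_cast
      ring
  algebraMap_mem' := by
    intro r
    refine ⟨C r, 1, ?_, ?_⟩
    · rw [map_one]
      exact one_ne_zero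
    · rw [map_one, mul_one, aeval_C, eq_ratCast, eq_ratCast]
      exact map_ratCast (IntermediateField.val (IntermediateField.adjoin ℚ T)) r

variable (hT : AlgebraicIndependent ℚ ((↑) : T → E))

include hT in
lemma LR_unique (x : E) (p q p' q' : MvPolynomial T ℚ) (h1 : eval t₀ q ≠ 0)
    (h2 : x * aeval ((↑) : T → E) q = aeval ((↑) : T → E) p) (h1' : eval t₀ q' ≠ 0)
    (h2' : x * aeval ((↑) : T → E) q' = aeval ((↑) : T → E) p') :
    eval t₀ p / eval t₀ q = eval t₀ p' / eval t₀ q' := by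
  have h3 : aeval ((↑) : T → E) (p * q') = aeval ((↑) : T → E) (p' * q) := by
    rw [map_mul, map_mul, ← h2, ← h2']
    ring
  have h4 : p * q' = p' * q := hT h3
  rw [div_eq_div_iff h1 h1']
  have h5 := congrArg (eval t₀) h4
  rw [map_mul, map_mul] at h5
  exact h5

/-- numerator and denominator -/
noncomputable def nu (x : LR T t₀) : MvPolynomial T ℚ := Classical.choose x.2

noncomputable def de (x : LR T t₀) : MvPolynomial T ℚ := Classical.choose (Classical.choose_spec x.2)

lemma nu_de (x : LR T t₀) : eval t₀ (de T t₀ x) ≠ 0 ∧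
    ((x : IntermediateField.adjoin ℚ T) : E) * aeval ((↑) : T → E) (de T t₀ x) =
      aeval ((↑) : T → E) (nu T t₀ x) :=
  Classical.choose_spec (Classical.choose_spec x.2)

include hT in
lemma val_eq (x : LR T t₀) (p q : MvPolynomial T ℚ) (h1 : eval t₀ q ≠ 0)
    (h2 : ((x : IntermediateField.adjoin ℚ T) : E) * aeval ((↑) : T → E) q = aeval ((↑) : T → E) p) :
    eval t₀ (nu T t₀ x) / eval t₀ (de T t₀ x) = eval t₀ p / eval t₀ q :=
  LR_unique T t₀ hT _ _ _ _ _ (nu_de T t₀ x).1 (nu_de T t₀ x).2 h1 h2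

/-- the value at the rational point -/
noncomputable def vl : LR T t₀ →ₐ[ℚ] ℚ where
  toFun x := eval t₀ (nu T t₀ x) / eval t₀ (de T t₀ x)
  map_one' := by
    rw [val_eq T t₀ hT 1 1 1 (by rw [map_one]; exact one_ne_zero) (by
      rw [map_one, mul_one]
      rfl), map_one, div_one]
  map_mul' x y := by
    obtain ⟨h1, h2⟩ := nu_de T t₀ x
    obtain ⟨h1', h2'⟩ := nu_de T t₀ y
    rw [val_eq T t₀ hT (x * y) (nu T t₀ x * nu T t₀ y) (de T t₀ x * de T t₀ y)
      (by rw [map_mul]; exact mul_ne_zero h1 h1') (by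
        rw [map_mul, map_mul, ← h2, ← h2']
        push_cast
        ring), map_mul, map_mul, mul_div_mul_comm]
  map_zero' := by
    rw [val_eq T t₀ hT 0 0 1 (by rw [map_one]; exact one_ne_zero) (by
      rw [map_one, mul_one, map_zero]
      rfl), map_zero, zero_div]
  map_add' x y := by
    obtain ⟨h1, h2⟩ := nu_de T t₀ x
    obtain ⟨h1', h2'⟩ := nu_de T t₀ y
    rw [val_eq T t₀ hT (x + y) (nu T t₀ x * de T t₀ y + nu T t₀ y * de T t₀ x) (de T t₀ x * de T t₀ y)
      (by rw [map_mul]; exact mul_ne_zero h1 h1') (by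
        rw [map_mul, map_add, map_mul, map_mul, ← h2, ← h2']
        push_cast
        ring), map_mul, map_add, map_mul, map_mul]
    field_simp
  commutes' r := by
    rw [val_eq T t₀ hT (algebraMap ℚ _ r) (C r) 1 (by rw [map_one]; exact one_ne_zero) (by
      rw [map_one, mul_one, aeval_C, eq_ratCast (algebraMap ℚ E)]
      have e1 : ((algebraMap ℚ (LR T t₀) r : LR T t₀) : IntermediateField.adjoin ℚ T) =
        algebraMap ℚ (IntermediateField.adjoin ℚ T) r := rfl
      rw [e1, eq_ratCast]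
      exact map_ratCast (IntermediateField.val (IntermediateField.adjoin ℚ T)) r),
      map_one, div_one, eval_C]
    rfl

end TAaux

open TAaux MvPolynomial in
/-- Task TA: a rational place of a purely transcendental extension at which finitely many given
elements are finite -/
theorem spec_transc {E : Type} [Field E] [Algebra ℚ E] (T : Set E)
    (hT : AlgebraicIndependent ℚ ((↑) : T → E)) (Z : Finset (IntermediateField.adjoin ℚ T)) :
    ∃ (S : Subalgebra ℚ (IntermediateField.adjoin ℚ T)) (_ : S →ₐ[ℚ] ℚ), ∀ z ∈ Z, z ∈ S := by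
  have hex : ∀ z : IntermediateField.adjoin ℚ T, ∃ p q : MvPolynomial T ℚ, q ≠ 0 ∧
      (z : E) * aeval ((↑) : T → E) q = aeval ((↑) : T → E) p := by
    intro z
    obtain ⟨r, s, h⟩ := (IntermediateField.mem_adjoin_iff ℚ (z : E)).mp z.2
    by_cases hs : aeval ((↑) : T → E) s = 0
    · refine ⟨0, 1, one_ne_zero, ?_⟩
      rw [map_one, map_zero, mul_one, h]
      rw [hs, div_zero]
    · refine ⟨r, s, ?_, ?_⟩
      · intro h0
        rw [h0, map_zero] at hs
        exact hs rfl
      · rw [h]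
        exact div_mul_cancel₀ _ hs
  choose p q hq hpq using hex
  have hQ : ∏ z ∈ Z, q z ≠ 0 := Finset.prod_ne_zero_iff.mpr fun z _ => hq z
  obtain ⟨t₀, ht⟩ : ∃ t₀ : T → ℚ, eval t₀ (∏ z ∈ Z, q z) ≠ 0 := by
    by_contra hcon
    push Not at hcon
    apply hQ
    refine MvPolynomial.funext fun t => ?_
    rw [hcon t, map_zero]
  refine ⟨LR T t₀, vl T t₀ hT, fun z hz => ⟨p z, q z, ?_, hpq z⟩⟩
  rw [map_prod] at ht
  exact (Finset.prod_ne_zero_iff.mp ht) z hz

end Pool.Agent.H452R3.SPR
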