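import Mathlib

/-!
# TB: specialisation of a finite extension to a number field of at most the same degree
-/

set_option autoImplicit false

namespace Pool.Agent.H452R3.SPR

theorem tb_aux {S R : Type} [CommRing S] [Algebra ℚ S] [CommRing R] [Algebra S R]
    (φ : S →ₐ[ℚ] ℚ) (hinj : Function.Injective (algebraMap S R)) (D : ℕ) (v : Fin D → R)
    (hv : ∀ x : R, ∃ s : Fin D → S, ∑ i, s i • v i = x) :
    ∃ (K : Type) (_ : Field K) (_ : NumberField K) (_ : R →+* K),
      Module.finrank ℚ K ≤ D := by
  classical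
  have hfin : Module.Finite S R := by
    apply Module.Finite.of_surjective (Fintype.linearCombination S v)
    intro x
    obtain ⟨s, hs⟩ := hv x
    exact ⟨s, by rw [Fintype.linearCombination_apply]; exact hs⟩
  have : Algebra.IsIntegral S R := Algebra.IsIntegral.of_finite S R
  have hmax : (RingHom.ker φ).IsMaximal :=
    RingHom.ker_isMaximal_of_surjective φ (fun q => ⟨algebraMap ℚ S q, by simp⟩)
  obtain ⟨P, hP, hPm⟩ := Ideal.exists_ideal_over_maximal_of_isIntegral (S := R) (RingHom.ker φ)
    (by rw [(RingHom.injective_iff_ker_eq_bot _).mp hinj]; exact bot_le)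
  letI : Field (R ⧸ P) := Ideal.Quotient.field P
  have hmem : ∀ s : S, φ s = 0 → algebraMap S R s ∈ P := by
    intro s hs
    have : s ∈ Ideal.comap (algebraMap S R) P := by rw [hPm]; exact hs
    exact this
  have hcz : CharZero (R ⧸ P) := by
    apply charZero_of_inj_zero
    intro n hn
    have h1 : ((n : ℕ) : R) ∈ P := by
      rw [← Ideal.Quotient.eq_zero_iff_mem, map_natCast]
      exact hn
    have h2 : ((n : ℕ) : S) ∈ Ideal.comap (algebraMap S R) P := by
      rw [Ideal.mem_comap, map_natCast]; exact h1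
    rw [hPm, RingHom.mem_ker, map_natCast] at h2
    exact_mod_cast h2
  let w : Fin D → R ⧸ P := fun i => Ideal.Quotient.mk P (v i)
  have hφ : ∀ s : S, Ideal.Quotient.mk P (algebraMap S R s) = algebraMap ℚ (R ⧸ P) (φ s) := by
    intro s
    have h1 : φ (s - algebraMap ℚ S (φ s)) = 0 := by
      rw [map_sub, AlgHom.commutes]
      simp
    have h2 := hmem _ h1
    rw [map_sub] at h2
    have h3 := Ideal.Quotient.eq.mpr h2
    rw [h3]
    have h4 : ((Ideal.Quotient.mk P).comp ((algebraMap S R).comp (algebraMap ℚ S))) =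
        algebraMap ℚ (R ⧸ P) := Subsingleton.elim _ _
    exact congrArg (fun f : ℚ →+* R ⧸ P => f (φ s)) h4
  have hsurj : Function.Surjective (Fintype.linearCombination ℚ w) := by
    intro y
    obtain ⟨x, rfl⟩ := Ideal.Quotient.mk_surjective y
    obtain ⟨s, rfl⟩ := hv x
    refine ⟨fun i => φ (s i), ?_⟩
    rw [Fintype.linearCombination_apply, map_sum]
    apply Finset.sum_congr rfl
    intro i _
    rw [Algebra.smul_def, Algebra.smul_def, map_mul, hφ]
  have hfd : FiniteDimensional ℚ (R ⧸ P) := Module.Finite.of_surjective _ hsurj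
  refine ⟨R ⧸ P, inferInstance, ⟨⟩, Ideal.Quotient.mk P, ?_⟩
  have h5 := LinearMap.finrank_le_finrank_of_surjective hsurj
  simpa using h5

/-- Task TB: specialisation of a finite extension to a number field of at most the same degree -/
theorem spec_finite {F E : Type} [Field F] [Field E] [Algebra ℚ F] [Algebra F E]
    [FiniteDimensional F E]
    (hF : ∀ Z : Finset F, ∃ (S : Subalgebra ℚ F) (_ : S →ₐ[ℚ] ℚ), ∀ z ∈ Z, z ∈ S)
    (Z : Finset E) (hZ : ∀ z ∈ Z, z ≠ 0) :
    ∃ (K : Type) (_ : Field K) (_ : NumberField K) (R : Subring E) (ψ : R →+* K),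
      Module.finrank ℚ K ≤ Module.finrank F E ∧ (∀ z ∈ Z, z ∈ R) ∧
      ∀ z : R, (z : E) ∈ Z → ψ z ≠ 0 := by
  classical
  let b := Module.finBasis F E
  let W : Finset F := (Finset.univ.image fun i => b.repr 1 i) ∪
    ((Finset.univ.image fun p : Fin (Module.finrank F E) × Fin (Module.finrank F E) ×
      Fin (Module.finrank F E) => b.repr (b p.1 * b p.2.1) p.2.2) ∪
    ((Z.biUnion fun z => Finset.univ.image fun i => b.repr z i) ∪
      (Z.biUnion fun z => Finset.univ.image fun i => b.repr z⁻¹ i)))
  obtain ⟨S, φ, hS⟩ := hF W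
  have h1 : ∀ i, b.repr 1 i ∈ S := fun i =>
    hS _ (Finset.mem_union_left _ (Finset.mem_image_of_mem _ (Finset.mem_univ i)))
  have h2 : ∀ i j k, b.repr (b i * b j) k ∈ S := fun i j k =>
    hS _ (Finset.mem_union_right _ (Finset.mem_union_left _
      (Finset.mem_image.mpr ⟨(i, j, k), Finset.mem_univ _, rfl⟩)))
  have h3 : ∀ z ∈ Z, ∀ i, b.repr z i ∈ S := fun z hz i =>
    hS _ (Finset.mem_union_right _ (Finset.mem_union_right _ (Finset.mem_union_left _
      (Finset.mem_biUnion.mpr ⟨z, hz, Finset.mem_image_of_mem _ (Finset.mem_univ i)⟩))))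
  have h4 : ∀ z ∈ Z, ∀ i, b.repr z⁻¹ i ∈ S := fun z hz i =>
    hS _ (Finset.mem_union_right _ (Finset.mem_union_right _ (Finset.mem_union_right _
      (Finset.mem_biUnion.mpr ⟨z, hz, Finset.mem_image_of_mem _ (Finset.mem_univ i)⟩))))
  let R : Subring E :=
    { carrier := {x | ∀ i, b.repr x i ∈ S}
      zero_mem' := by
        intro i
        rw [map_zero]
        exact S.zero_mem
      one_mem' := h1
      add_mem' := by
        intro x y hx hy i
        rw [map_add]
        exact S.add_mem (hx i) (hy i)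
      neg_mem' := by
        intro x hx i
        rw [map_neg]
        exact S.neg_mem (hx i)
      mul_mem' := by
        intro x y hx hy k
        have e : x * y = ∑ i, ∑ j, (b.repr x i * b.repr y j) • (b i * b j) := by
          conv_lhs => rw [← b.sum_repr x, ← b.sum_repr y]
          rw [Finset.sum_mul_sum]
          apply Finset.sum_congr rfl
          intro i _
          apply Finset.sum_congr rfl
          intro j _
          rw [smul_mul_smul_comm]
        rw [e]
        rw [map_sum, Finsupp.finsetSum_apply]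
        apply Subalgebra.sum_mem
        intro i _
        rw [map_sum, Finsupp.finsetSum_apply]
        apply Subalgebra.sum_mem
        intro j _
        rw [map_smul, Finsupp.smul_apply, smul_eq_mul]
        exact S.mul_mem (S.mul_mem (hx i) (hy j)) (h2 i j k) }
  have hR : ∀ x : E, x ∈ R ↔ ∀ i, b.repr x i ∈ S := fun x => Iff.rfl
  have hbR : ∀ i, b i ∈ R := by
    intro i
    rw [hR]
    intro j
    rw [b.repr_self, Finsupp.single_apply]
    split_ifs
    · exact S.one_mem
    · exact S.zero_mem
  have hsR : ∀ s : S, algebraMap F E (s : F) ∈ R := by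
    intro s
    rw [hR]
    intro i
    rw [Algebra.algebraMap_eq_smul_one, map_smul, Finsupp.smul_apply, smul_eq_mul]
    exact S.mul_mem s.2 (h1 i)
  let ι : S →+* R := ((algebraMap F E).comp S.val.toRingHom).codRestrict R hsR
  letI : Algebra S R := ι.toAlgebra
  have hinj : Function.Injective (algebraMap S R) := by
    intro s t hst
    have h5 : algebraMap F E (s : F) = algebraMap F E (t : F) := congrArg Subtype.val hst
    exact Subtype.ext ((algebraMap F E).injective h5)
  obtain ⟨K, fK, nK, ψ, hK⟩ := tb_aux φ hinj (Module.finrank F E) (fun i => (⟨b i, hbR i⟩ : R))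
    (by
      intro x
      refine ⟨fun i => ⟨b.repr x i, (hR x).mp x.2 i⟩, ?_⟩
      apply Subtype.ext
      rw [AddSubmonoidClass.coe_finsetSum]
      conv_rhs => rw [← b.sum_repr (x : E)]
      apply Finset.sum_congr rfl
      intro i _
      rw [Algebra.smul_def (b.repr (x : E) i) (b i)]
      rfl)
  refine ⟨K, fK, nK, R, ψ, hK, fun z hz => (hR z).mpr (h3 z hz), ?_⟩
  intro z hz h0
  have hzi : (z : E)⁻¹ ∈ R := (hR _).mpr (h4 z hz)
  have h6 : z * (⟨(z : E)⁻¹, hzi⟩ : R) = 1 := Subtype.ext (mul_inv_cancel₀ (hZ z hz))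
  have h7 := congrArg ψ h6
  rw [map_mul, h0, zero_mul, map_one] at h7
  exact zero_ne_one h7

end Pool.Agent.H452R3.SPR
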